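import Pool.Agent.W58.GU.Stm

/-!
GU-SPLIT: splitting a block sequence along successive functionals.
-/

namespace Pool.Agent.W577.GU
open Finset Pool.Agent.W58.GU

open Classical in
theorem split : S_SPLIT := by
  intro d g E x hg hx
  let h : ℕ → Finset ℕ := fun k => (range d).filter (fun l => ∃ a, g l a ≠ 0 ∧ x k a ≠ 0)
  have hmem : ∀ k l, l ∈ h k ↔ l < d ∧ ∃ a, g l a ≠ 0 ∧ x k a ≠ 0 := by
    intro k l
    simp only [h, Finset.mem_filter, Finset.mem_range]
  let E' : Finset ℕ := E.filter (fun k => 2 ≤ (h k).card)
  let F : ℕ → Finset ℕ := fun l => E.filter (fun k => h k = {l})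
  have hFE : ∀ l, F l ⊆ E \ E' := by
    intro l k hk
    simp only [F, Finset.mem_filter] at hk
    simp only [E', Finset.mem_sdiff, Finset.mem_filter]
    refine ⟨hk.1, ?_⟩
    rintro ⟨-, h2⟩
    rw [hk.2, Finset.card_singleton] at h2
    omega
  refine ⟨E', F, Finset.filter_subset _ _, ?_, fun l _ => hFE l, ?_, ?_⟩
  · let f : ℕ → ℕ := fun k => if hne : (h k).Nonempty then (h k).min' hne else 0
    have hfmem : ∀ k ∈ E', f k ∈ h k := by
      intro k hk
      simp only [E', Finset.mem_filter] at hk
      have hne : (h k).Nonempty := by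
        rw [← Finset.card_pos]; omega
      simp only [f, dif_pos hne]
      exact Finset.min'_mem _ _
    have hfmin : ∀ k, ∀ l ∈ h k, f k ≤ l := by
      intro k l hl
      have hne : (h k).Nonempty := ⟨l, hl⟩
      simp only [f, dif_pos hne]
      exact Finset.min'_le _ _ hl
    have key : ∀ k ∈ E', ∀ k' ∈ E', k < k' → f k ≠ f k' := by
      intro k hk k' hk' hkk heq
      have h1 := hfmem k hk
      have h2 := hfmem k' hk'
      rw [← heq] at h2
      have hk0 := hk
      have hk0' := hk'
      simp only [E', Finset.mem_filter] at hk0 hk0'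
      obtain ⟨l', hl', hne⟩ := Finset.exists_mem_ne (by omega : 1 < (h k).card) (f k)
      have hlt : f k < l' := lt_of_le_of_ne (hfmin k l' hl') (Ne.symm hne)
      rw [hmem] at hl' h2
      obtain ⟨hl'd, b, hb1, hb2⟩ := hl'
      obtain ⟨-, a, ha1, ha2⟩ := h2
      have h3 := hx k hk0.1 k' hk0'.1 hkk b (Finsupp.mem_support_iff.2 hb2) a
        (Finsupp.mem_support_iff.2 ha2)
      have h4 := hg (f k) l' hlt hl'd a (Finsupp.mem_support_iff.2 ha1) b
        (Finsupp.mem_support_iff.2 hb1)
      omega
    have h5 : E'.card ≤ (range d).card := by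
      apply Finset.card_le_card_of_injOn f
      · intro k hk
        have := hfmem k hk
        rw [hmem] at this
        exact Finset.mem_coe.2 (Finset.mem_range.2 this.1)
      · intro k hk k' hk' heq
        by_contra hne
        rcases Nat.lt_or_gt_of_ne hne with h6 | h6
        · exact key k hk k' hk' h6 heq
        · exact key k' hk' k hk h6 heq.symm
    simpa using h5
  · intro l l' _ _ hll
    rw [Finset.disjoint_left]
    intro k hk hk'
    simp only [F, Finset.mem_filter] at hk hk'
    apply hll
    exact Finset.singleton_injective (hk.2.symm.trans hk'.2)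
  · have hsub : E' ⊆ E := Finset.filter_subset _ _
    rw [pr_fsum, ← Finset.sum_sdiff hsub, add_comm]
    congr 1
    have h1 : ∀ k ∈ E \ E', ∀ l ∈ range d, pr (g l) (x k) =
        if h k = {l} then pr (g l) (x k) else 0 := by
      intro k hk l hl
      rw [Finset.mem_range] at hl
      by_cases hlk : l ∈ h k
      · have hcard : (h k).card ≤ 1 := by
          simp only [E', Finset.mem_sdiff, Finset.mem_filter, not_and, not_le] at hk
          have := hk.2 hk.1
          omega
        have heq : h k = {l} := by
          apply Finset.eq_singleton_iff_unique_mem.2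
          exact ⟨hlk, fun y hy => Finset.card_le_one.1 hcard y hy l hlk⟩
        rw [if_pos heq]
      · have hne : h k ≠ {l} := by
          intro heq
          apply hlk
          rw [heq]
          exact Finset.mem_singleton_self l
        rw [if_neg hne]
        apply pr_eq_zero
        intro a ha
        by_contra hxa
        exact hlk ((hmem k l).2 ⟨hl, a, Finsupp.mem_support_iff.1 ha, hxa⟩)
    have h2 : ∑ k ∈ E \ E', pr (∑ l ∈ range d, g l) (x k) =
        ∑ k ∈ E \ E', ∑ l ∈ range d, if h k = {l} then pr (g l) (x k) else 0 := by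
      apply Finset.sum_congr rfl
      intro k hk
      rw [pr_sum_left]
      exact Finset.sum_congr rfl (fun l hl => h1 k hk l hl)
    rw [h2, Finset.sum_comm]
    apply Finset.sum_congr rfl
    intro l _
    rw [pr_fsum, ← Finset.sum_filter]
    apply Finset.sum_congr
    · ext k
      simp only [F, Finset.mem_filter, Finset.mem_sdiff]
      constructor
      · rintro ⟨⟨h3, -⟩, h4⟩
        exact ⟨h3, h4⟩
      · rintro ⟨h3, h4⟩
        have h5 := hFE l (Finset.mem_filter.2 ⟨h3, h4⟩)
        exact ⟨Finset.mem_sdiff.1 h5, h4⟩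
    · intro k _
      rfl

end Pool.Agent.W577.GU
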